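import Mathlib

set_option autoImplicit false

namespace Pool.Agent.Results.MP_70625d_co.NoCommonBall

open scoped Classical

/-- Euclidean space `ℝ^d` with the Euclidean norm. -/
abbrev E (d : ℕ) : Type := EuclideanSpace ℝ (Fin d)

/-- `M` is a perfect matching of the finite set `X`: `M` is a set of unordered pairs of distinct
points of `X` and every point of `X` lies in exactly one of these pairs. -/
def IsPerfectMatching {d : ℕ} (X : Finset (E d)) (M : Finset (Sym2 (E d))) : Prop :=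
  (∀ p ∈ M, ¬ p.IsDiag ∧ ∀ x ∈ p, x ∈ X) ∧ ∀ x ∈ X, ∃! p : Sym2 (E d), p ∈ M ∧ x ∈ p

/-- The Euclidean distance `|x - y|` of an unordered pair `{x, y}`. -/
noncomputable def pairDist {d : ℕ} (p : Sym2 (E d)) : ℝ :=
  Sym2.lift ⟨fun x y => dist x y, fun x y => dist_comm x y⟩ p

/-- The closed ball `B[x,y]` having the segment `xy` as a diameter, for an unordered pair
`{x, y}`: centre `(x+y)/2`, radius `|x-y|/2`. -/
noncomputable def pairBall {d : ℕ} (p : Sym2 (E d)) : Set (E d) :=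
  Sym2.lift ⟨fun x y => Metric.closedBall ((1 / 2 : ℝ) • (x + y)) (dist x y / 2),
    fun x y => by simp only [add_comm x y, dist_comm x y]⟩ p

/-- `M` is a max-sum matching of `X`: a perfect matching of `X` maximising the sum of the
distances of its pairs among all perfect matchings of `X`. -/
def IsMaxSumMatching {d : ℕ} (X : Finset (E d)) (M : Finset (Sym2 (E d))) : Prop :=
  IsPerfectMatching X M ∧
    ∀ M' : Finset (Sym2 (E d)), IsPerfectMatching X M' →
      ∑ p ∈ M', pairDist p ≤ ∑ p ∈ M, pairDist p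

/-- `r` is the minimum distance of `X`: the least of the numbers `|x - y|` over distinct
`x, y ∈ X`. -/
def IsMinDist {d : ℕ} (X : Finset (E d)) (r : ℝ) : Prop :=
  IsLeast {t : ℝ | ∃ x ∈ X, ∃ y ∈ X, x ≠ y ∧ dist x y = t} r

/-! ### Weights (linear programming duality) -/

lemma mem_pair_sum {d : ℕ} (X : Finset (E d)) (w : E d → ℝ) (x y : E d) (hx : x ∈ X)
    (hy : y ∈ X) (hxy : x ≠ y) :
    ∑ z ∈ X.filter (fun z => z ∈ s(x, y)), w z = w x + w y := by
  have : X.filter (fun z => z ∈ s(x, y)) = {x, y} := by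
    ext z
    simp only [Finset.mem_filter, Sym2.mem_iff, Finset.mem_insert, Finset.mem_singleton]
    constructor
    · rintro ⟨_, h⟩
      exact h
    · rintro (h | h)
      · subst h; exact ⟨hx, Or.inl rfl⟩
      · subst h; exact ⟨hy, Or.inr rfl⟩
  rw [this, Finset.sum_pair hxy]

/-- total weight of a pair -/
noncomputable def pairWt {d : ℕ} (w : E d → ℝ) (p : Sym2 (E d)) : ℝ :=
  Sym2.lift ⟨fun x y => w x + w y, fun _ _ => add_comm _ _⟩ p

lemma sum_pairWt {d : ℕ} (X : Finset (E d)) (M : Finset (Sym2 (E d)))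
    (hM : IsPerfectMatching X M) (w : E d → ℝ) :
    ∑ p ∈ M, pairWt w p = ∑ x ∈ X, w x := by
  obtain ⟨h1, h2⟩ := hM
  have e1 : ∑ p ∈ M, pairWt w p = ∑ p ∈ M, ∑ z ∈ X.filter (fun z => z ∈ p), w z := by
    apply Finset.sum_congr rfl
    intro p hp
    obtain ⟨hd, hX⟩ := h1 p hp
    induction p using Sym2.ind with
    | _ x y =>
      have hxy : x ≠ y := by
        intro h
        apply hd
        simpa using h
      rw [mem_pair_sum X w x y (hX x (Sym2.mem_mk_left x y)) (hX y (Sym2.mem_mk_right x y)) hxy]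
      rfl
  rw [e1]
  have e2 : ∑ p ∈ M, ∑ z ∈ X.filter (fun z => z ∈ p), w z
      = ∑ z ∈ X, ∑ p ∈ M.filter (fun p => z ∈ p), w z := by
    apply Finset.sum_comm'
    intro p z
    simp only [Finset.mem_filter]
    tauto
  rw [e2]
  apply Finset.sum_congr rfl
  intro z hz
  obtain ⟨p, ⟨hpM, hzp⟩, hu⟩ := h2 z hz
  have : M.filter (fun p => z ∈ p) = {p} := by
    ext q
    simp only [Finset.mem_filter, Finset.mem_singleton]
    constructor
    · intro h
      exact hu q h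
    · intro h
      subst h
      exact ⟨hpM, hzp⟩
  rw [this, Finset.sum_singleton]

/-- If a weight `w` dominates all distances, and a perfect matching `M` is tight, then `M` is
max-sum. -/
lemma isMaxSum_of_weight {d : ℕ} (X : Finset (E d)) (M : Finset (Sym2 (E d)))
    (hM : IsPerfectMatching X M) (w : E d → ℝ)
    (hw : ∀ x ∈ X, ∀ y ∈ X, x ≠ y → dist x y ≤ w x + w y)
    (ht : ∀ p ∈ M, pairDist p = pairWt w p) : IsMaxSumMatching X M := by
  refine ⟨hM, fun M' hM' => ?_⟩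
  calc ∑ p ∈ M', pairDist p ≤ ∑ p ∈ M', pairWt w p := by
        apply Finset.sum_le_sum
        intro p hp
        obtain ⟨hd, hX⟩ := hM'.1 p hp
        induction p using Sym2.ind with
        | _ x y =>
          have hxy : x ≠ y := by
            intro h
            apply hd
            simpa using h
          exact hw x (hX x (Sym2.mem_mk_left x y)) y (hX y (Sym2.mem_mk_right x y)) hxy
    _ = ∑ x ∈ X, w x := sum_pairWt X M' hM' w
    _ = ∑ p ∈ M, pairWt w p := (sum_pairWt X M hM w).symm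
    _ = ∑ p ∈ M, pairDist p := Finset.sum_congr rfl (fun p hp => (ht p hp).symm)

/-- Complementary slackness: every max-sum matching is tight as soon as some perfect matching
is tight. -/
lemma tight_of_isMaxSum {d : ℕ} (X : Finset (E d)) (M M' : Finset (Sym2 (E d)))
    (hM : IsPerfectMatching X M) (w : E d → ℝ)
    (hw : ∀ x ∈ X, ∀ y ∈ X, x ≠ y → dist x y ≤ w x + w y)
    (ht : ∀ p ∈ M, pairDist p = pairWt w p) (hM' : IsMaxSumMatching X M') :
    ∀ p ∈ M', pairDist p = pairWt w p := by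
  have hle : ∀ p ∈ M', pairDist p ≤ pairWt w p := by
    intro p hp
    obtain ⟨hd, hX⟩ := hM'.1.1 p hp
    induction p using Sym2.ind with
    | _ x y =>
      have hxy : x ≠ y := by
        intro h
        apply hd
        simpa using h
      exact hw x (hX x (Sym2.mem_mk_left x y)) y (hX y (Sym2.mem_mk_right x y)) hxy
  have hsum : ∑ p ∈ M', pairWt w p ≤ ∑ p ∈ M', pairDist p := by
    calc ∑ p ∈ M', pairWt w p = ∑ x ∈ X, w x := sum_pairWt X M' hM'.1 w
      _ = ∑ p ∈ M, pairWt w p := (sum_pairWt X M hM w).symm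
      _ = ∑ p ∈ M, pairDist p := Finset.sum_congr rfl (fun p hp => (ht p hp).symm)
      _ ≤ ∑ p ∈ M', pairDist p := hM'.2 M hM
  have heq : ∑ p ∈ M', pairDist p = ∑ p ∈ M', pairWt w p :=
    le_antisymm (Finset.sum_le_sum hle) hsum
  exact (Finset.sum_eq_sum_iff_of_le hle).1 heq

/-! ### Coordinates -/

/-- The point of `ℝ^(k+2)` with first two coordinates `x, y` and all others zero. -/
noncomputable def pt (k : ℕ) (x y : ℝ) : E (k + 2) :=
  EuclideanSpace.single 0 x + EuclideanSpace.single 1 y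

lemma pt_zero (k : ℕ) (x y : ℝ) : pt k x y 0 = x := by
  simp [pt]

lemma pt_one (k : ℕ) (x y : ℝ) : pt k x y 1 = y := by
  simp [pt]

lemma pt_inj (k : ℕ) {x y x' y' : ℝ} : pt k x y = pt k x' y' ↔ x = x' ∧ y = y' := by
  constructor
  · intro h
    refine ⟨?_, ?_⟩
    · rw [← pt_zero k x y, h, pt_zero]
    · rw [← pt_one k x y, h, pt_one]
  · rintro ⟨rfl, rfl⟩
    rfl

lemma pt_sub (k : ℕ) (x y x' y' : ℝ) : pt k x y - pt k x' y' = pt k (x - x') (y - y') := by
  ext i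
  simp only [pt, PiLp.sub_apply, PiLp.add_apply, PiLp.single_apply]
  split_ifs <;> ring

lemma inner_pt (k : ℕ) (z : E (k + 2)) (x y : ℝ) :
    inner ℝ z (pt k x y) = z 0 * x + z 1 * y := by
  simp only [pt, inner_add_right, EuclideanSpace.inner_single_right]
  simp [mul_comm]

lemma norm_pt_sq (k : ℕ) (x y : ℝ) : ‖pt k x y‖ ^ 2 = x ^ 2 + y ^ 2 := by
  rw [← real_inner_self_eq_norm_sq, inner_pt, pt_zero, pt_one]
  ring

lemma norm_pt (k : ℕ) (x y : ℝ) : ‖pt k x y‖ = Real.sqrt (x ^ 2 + y ^ 2) := by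
  rw [← norm_pt_sq, Real.sqrt_sq (norm_nonneg _)]

lemma dist_pt (k : ℕ) (x y x' y' : ℝ) :
    dist (pt k x y) (pt k x' y') = Real.sqrt ((x - x') ^ 2 + (y - y') ^ 2) := by
  rw [dist_eq_norm, pt_sub, norm_pt]

/-! ### Half spaces -/

lemma inner_nonneg_of_mem {d : ℕ} (a b y : E d) (hy : y ∈ pairBall s(a, b)) :
    0 ≤ inner ℝ (y - b) (a - b) := by
  have hy' : dist y ((1 / 2 : ℝ) • (a + b)) ≤ dist a b / 2 := hy
  have hm : y - b = (y - (1 / 2 : ℝ) • (a + b)) + (1 / 2 : ℝ) • (a - b) := by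
    module
  have h1 : inner ℝ (y - b) (a - b)
      = inner ℝ (y - (1 / 2 : ℝ) • (a + b)) (a - b) + (1 / 2) * ‖a - b‖ ^ 2 := by
    rw [hm, inner_add_left, real_inner_smul_left, real_inner_self_eq_norm_sq]
  rw [dist_eq_norm, dist_eq_norm] at hy'
  have h2 : |inner ℝ (y - (1 / 2 : ℝ) • (a + b)) (a - b)|
      ≤ ‖y - (1 / 2 : ℝ) • (a + b)‖ * ‖a - b‖ := abs_real_inner_le_norm _ _
  have h3 := (abs_le.1 h2).1
  have h4 : ‖y - (1 / 2 : ℝ) • (a + b)‖ * ‖a - b‖ ≤ ‖a - b‖ / 2 * ‖a - b‖ :=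
    mul_le_mul_of_nonneg_right hy' (norm_nonneg _)
  rw [h1]
  nlinarith

lemma half_space {d : ℕ} (a b z : E d) (ρ : ℝ) (hρ : 0 < ρ) (hab : a ≠ b)
    (h : Metric.ball z ρ ⊆ pairBall s(a, b)) :
    ρ / 2 * ‖a - b‖ ≤ inner ℝ (z - b) (a - b) := by
  have hn : 0 < ‖a - b‖ := norm_pos_iff.2 (sub_ne_zero.2 hab)
  have hy : z - (ρ / 2 / ‖a - b‖) • (a - b) ∈ Metric.ball z ρ := by
    rw [Metric.mem_ball, dist_eq_norm]
    have : z - (ρ / 2 / ‖a - b‖) • (a - b) - z = -((ρ / 2 / ‖a - b‖) • (a - b)) := by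
      module
    rw [this, norm_neg, norm_smul, Real.norm_eq_abs, abs_of_nonneg (by positivity),
      div_mul_cancel₀ _ hn.ne']
    linarith
  have h1 := inner_nonneg_of_mem a b _ (h hy)
  have h2 : z - (ρ / 2 / ‖a - b‖) • (a - b) - b
      = (z - b) - (ρ / 2 / ‖a - b‖) • (a - b) := by
    module
  rw [h2, inner_sub_left, real_inner_smul_left, real_inner_self_eq_norm_sq] at h1
  have h3 : ρ / 2 / ‖a - b‖ * ‖a - b‖ ^ 2 = ρ / 2 * ‖a - b‖ := by
    field_simp
  linarith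

/-! ### The configuration -/

/-- The six points `(L,h), (-L,h), (0,-4), (0,0), (0,-1), (0,-2)`. -/
noncomputable def cfg (k : ℕ) (L h : ℝ) : Finset (E (k + 2)) :=
  {pt k L h, pt k (-L) h, pt k 0 (-4), pt k 0 0, pt k 0 (-1), pt k 0 (-2)}

/-- The matching `(L,h)(0,-1), (-L,h)(0,-2), (0,-4)(0,0)`. -/
noncomputable def mat (k : ℕ) (L h : ℝ) : Finset (Sym2 (E (k + 2))) :=
  {s(pt k L h, pt k 0 (-1)), s(pt k (-L) h, pt k 0 (-2)), s(pt k 0 (-4), pt k 0 0)}

/-- The weights. -/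
noncomputable def wt (k : ℕ) (L h : ℝ) (z : E (k + 2)) : ℝ :=
  if z 0 = 0 then
    (if z 1 = -4 then 3 else 1 + Real.sqrt (L ^ 2 + (h - z 1) ^ 2) - Real.sqrt (L ^ 2 + h ^ 2))
  else Real.sqrt (L ^ 2 + h ^ 2) - 1

section config

variable (k : ℕ) (L h : ℝ)

lemma mem_cfg (x : E (k + 2)) : x ∈ cfg k L h ↔ x = pt k L h ∨ x = pt k (-L) h ∨
    x = pt k 0 (-4) ∨ x = pt k 0 0 ∨ x = pt k 0 (-1) ∨ x = pt k 0 (-2) := by
  simp [cfg]

lemma mem_mat (p : Sym2 (E (k + 2))) : p ∈ mat k L h ↔ p = s(pt k L h, pt k 0 (-1)) ∨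
    p = s(pt k (-L) h, pt k 0 (-2)) ∨ p = s(pt k 0 (-4), pt k 0 0) := by
  simp [mat]

lemma card_cfg (hL : 0 < L) : (cfg k L h).card = 6 := by
  have e1 : ∀ y : ℝ, pt k L h ≠ pt k 0 y := by
    intro y hh
    rw [pt_inj] at hh
    linarith [hh.1]
  have e2 : ∀ y : ℝ, pt k (-L) h ≠ pt k 0 y := by
    intro y hh
    rw [pt_inj] at hh
    linarith [hh.1]
  have e3 : pt k L h ≠ pt k (-L) h := by
    intro hh
    rw [pt_inj] at hh
    linarith [hh.1]
  have e4 : ∀ y y' : ℝ, y ≠ y' → pt k 0 y ≠ pt k 0 y' := by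
    intro y y' hy hh
    rw [pt_inj] at hh
    exact hy hh.2
  unfold cfg
  rw [Finset.card_insert_of_notMem, Finset.card_insert_of_notMem, Finset.card_insert_of_notMem,
    Finset.card_insert_of_notMem, Finset.card_insert_of_notMem, Finset.card_singleton]
  all_goals
    simp only [Finset.mem_insert, Finset.mem_singleton, not_or]
    try simp only [e1, e2, e3, not_false_eq_true, and_true]
    try (refine ⟨?_, ?_, ?_⟩ <;> apply e4 <;> norm_num)
    try (refine ⟨?_, ?_⟩ <;> apply e4 <;> norm_num)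
    try (apply e4 <;> norm_num)

lemma ne1 (hL : 0 < L) (y y' : ℝ) : pt k L y ≠ pt k 0 y' := by
  intro hh
  rw [pt_inj] at hh
  linarith [hh.1]

lemma ne2 (hL : 0 < L) (y y' : ℝ) : pt k (-L) y ≠ pt k 0 y' := by
  intro hh
  rw [pt_inj] at hh
  linarith [hh.1]

lemma ne3 (hL : 0 < L) (y y' : ℝ) : pt k L y ≠ pt k (-L) y' := by
  intro hh
  rw [pt_inj] at hh
  linarith [hh.1]

lemma ne4 {y y' : ℝ} (hy : y ≠ y') : pt k 0 y ≠ pt k 0 y' := by
  intro hh
  rw [pt_inj] at hh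
  exact hy hh.2

lemma perfect (hL : 0 < L) : IsPerfectMatching (cfg k L h) (mat k L h) := by
  have n1 := ne1 k L hL
  have n2 := ne2 k L hL
  have n3 := ne3 k L hL
  have n1' := fun y y' => (ne1 k L hL y y').symm
  have n2' := fun y y' => (ne2 k L hL y y').symm
  have n3' := fun y y' => (ne3 k L hL y y').symm
  have c1 : (0 : ℝ) ≠ -1 := by norm_num
  have c2 : (0 : ℝ) ≠ -2 := by norm_num
  have c3 : (0 : ℝ) ≠ -4 := by norm_num
  have c4 : (-1 : ℝ) ≠ -2 := by norm_num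
  have c5 : (-1 : ℝ) ≠ -4 := by norm_num
  have c6 : (-2 : ℝ) ≠ -4 := by norm_num
  have d1 := ne4 k c1
  have d2 := ne4 k c2
  have d3 := ne4 k c3
  have d4 := ne4 k c4
  have d5 := ne4 k c5
  have d6 := ne4 k c6
  constructor
  · intro p hp
    rw [mem_mat] at hp
    rcases hp with rfl | rfl | rfl
    · refine ⟨by simpa using n1 _ _, ?_⟩
      intro x hx
      rw [Sym2.mem_iff] at hx
      rw [mem_cfg]
      tauto
    · refine ⟨by simpa using n2 _ _, ?_⟩
      intro x hx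
      rw [Sym2.mem_iff] at hx
      rw [mem_cfg]
      tauto
    · refine ⟨by simpa using d3.symm, ?_⟩
      intro x hx
      rw [Sym2.mem_iff] at hx
      rw [mem_cfg]
      tauto
  · intro x hx
    rw [mem_cfg] at hx
    have key : ∀ (p : Sym2 (E (k + 2))), p ∈ mat k L h → x ∈ p →
        (∀ q, q ∈ mat k L h → x ∈ q → q = p) → ∃! p : Sym2 (E (k + 2)), p ∈ mat k L h ∧ x ∈ p :=
      fun p h1 h2 h3 => ⟨p, ⟨h1, h2⟩, fun q hq => h3 q hq.1 hq.2⟩
    rcases hx with rfl | rfl | rfl | rfl | rfl | rfl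
    · refine key s(pt k L h, pt k 0 (-1)) (by simp [mem_mat]) (Sym2.mem_mk_left _ _) ?_
      intro q hq hxq
      rw [mem_mat] at hq
      rcases hq with rfl | rfl | rfl
      · rfl
      · exfalso
        rw [Sym2.mem_iff] at hxq
        rcases hxq with hxq | hxq
        · exact n3 _ _ hxq
        · exact n1 _ _ hxq
      · exfalso
        rw [Sym2.mem_iff] at hxq
        rcases hxq with hxq | hxq <;> exact n1 _ _ hxq
    · refine key s(pt k (-L) h, pt k 0 (-2)) (by simp [mem_mat]) (Sym2.mem_mk_left _ _) ?_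
      intro q hq hxq
      rw [mem_mat] at hq
      rcases hq with rfl | rfl | rfl
      · exfalso
        rw [Sym2.mem_iff] at hxq
        rcases hxq with hxq | hxq
        · exact n3' _ _ hxq
        · exact n2 _ _ hxq
      · rfl
      · exfalso
        rw [Sym2.mem_iff] at hxq
        rcases hxq with hxq | hxq <;> exact n2 _ _ hxq
    · refine key s(pt k 0 (-4), pt k 0 0) (by simp [mem_mat]) (Sym2.mem_mk_left _ _) ?_
      intro q hq hxq
      rw [mem_mat] at hq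
      rcases hq with rfl | rfl | rfl
      · exfalso
        rw [Sym2.mem_iff] at hxq
        rcases hxq with hxq | hxq
        · exact n1' _ _ hxq
        · exact d5.symm hxq
      · exfalso
        rw [Sym2.mem_iff] at hxq
        rcases hxq with hxq | hxq
        · exact n2' _ _ hxq
        · exact d6.symm hxq
      · rfl
    · refine key s(pt k 0 (-4), pt k 0 0) (by simp [mem_mat]) (Sym2.mem_mk_right _ _) ?_
      intro q hq hxq
      rw [mem_mat] at hq
      rcases hq with rfl | rfl | rfl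
      · exfalso
        rw [Sym2.mem_iff] at hxq
        rcases hxq with hxq | hxq
        · exact n1' _ _ hxq
        · exact d1 hxq
      · exfalso
        rw [Sym2.mem_iff] at hxq
        rcases hxq with hxq | hxq
        · exact n2' _ _ hxq
        · exact d2 hxq
      · rfl
    · refine key s(pt k L h, pt k 0 (-1)) (by simp [mem_mat]) (Sym2.mem_mk_right _ _) ?_
      intro q hq hxq
      rw [mem_mat] at hq
      rcases hq with rfl | rfl | rfl
      · rfl
      · exfalso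
        rw [Sym2.mem_iff] at hxq
        rcases hxq with hxq | hxq
        · exact n2' _ _ hxq
        · exact d4 hxq
      · exfalso
        rw [Sym2.mem_iff] at hxq
        rcases hxq with hxq | hxq
        · exact d5 hxq
        · exact d1.symm hxq
    · refine key s(pt k (-L) h, pt k 0 (-2)) (by simp [mem_mat]) (Sym2.mem_mk_right _ _) ?_
      intro q hq hxq
      rw [mem_mat] at hq
      rcases hq with rfl | rfl | rfl
      · exfalso
        rw [Sym2.mem_iff] at hxq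
        rcases hxq with hxq | hxq
        · exact n1' _ _ hxq
        · exact d4.symm hxq
      · rfl
      · exfalso
        rw [Sym2.mem_iff] at hxq
        rcases hxq with hxq | hxq
        · exact d6 hxq
        · exact d2.symm hxq

/-! Values of the weights. -/

lemma wt_a (hL : 0 < L) : wt k L h (pt k L h) = Real.sqrt (L ^ 2 + h ^ 2) - 1 := by
  rw [wt, pt_zero, if_neg hL.ne']

lemma wt_a' (hL : 0 < L) : wt k L h (pt k (-L) h) = Real.sqrt (L ^ 2 + h ^ 2) - 1 := by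
  rw [wt, pt_zero, if_neg (by linarith)]

lemma wt_c : wt k L h (pt k 0 (-4)) = 3 := by
  rw [wt, pt_zero, pt_one, if_pos rfl, if_pos rfl]

lemma wt_b (y : ℝ) (hy : y ≠ -4) : wt k L h (pt k 0 y) =
    1 + Real.sqrt (L ^ 2 + (h - y) ^ 2) - Real.sqrt (L ^ 2 + h ^ 2) := by
  rw [wt, pt_zero, pt_one, if_pos rfl, if_neg hy]

lemma dist_ab (y : ℝ) : dist (pt k L h) (pt k 0 y) = Real.sqrt (L ^ 2 + (h - y) ^ 2) := by
  rw [dist_pt, sub_zero]

lemma dist_a'b (y : ℝ) : dist (pt k (-L) h) (pt k 0 y) = Real.sqrt (L ^ 2 + (h - y) ^ 2) := by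
  rw [dist_pt, sub_zero, neg_sq]

lemma dist_bb (y y' : ℝ) : dist (pt k 0 y) (pt k 0 y') = |y - y'| := by
  rw [dist_pt, sub_zero, zero_pow two_ne_zero, zero_add, Real.sqrt_sq_eq_abs]

lemma dist_aa' (hL : 0 < L) : dist (pt k L h) (pt k (-L) h) = 2 * L := by
  rw [dist_pt]
  have : (L - -L) ^ 2 + (h - h) ^ 2 = (2 * L) ^ 2 := by ring
  rw [this, Real.sqrt_sq (by linarith)]

/-- `S_0 ≤ S_y` for `y ≤ 0 ≤ h`. -/
lemma sqrt_mono (hh : 0 ≤ h) (y : ℝ) (hy : y ≤ 0) :
    Real.sqrt (L ^ 2 + h ^ 2) ≤ Real.sqrt (L ^ 2 + (h - y) ^ 2) := by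
  apply Real.sqrt_le_sqrt
  nlinarith

lemma sqrt_strict (hh : 0 ≤ h) (y : ℝ) (hy : y < 0) :
    Real.sqrt (L ^ 2 + h ^ 2) < Real.sqrt (L ^ 2 + (h - y) ^ 2) := by
  apply Real.sqrt_lt_sqrt
  · positivity
  · nlinarith

/-- `L + 1 < S_0`. -/
lemma S_gt (h1 : 2 * L + 1 < h ^ 2) : L + 1 < Real.sqrt (L ^ 2 + h ^ 2) := by
  apply Real.lt_sqrt_of_sq_lt
  nlinarith

lemma dist_ac_lt (hL : 0 < L) (h2 : 2 * h + 3 < L) :
    Real.sqrt (L ^ 2 + (h - (-4)) ^ 2) < Real.sqrt (L ^ 2 + h ^ 2) + 2 := by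
  have hS : L ≤ Real.sqrt (L ^ 2 + h ^ 2) := by
    apply Real.le_sqrt_of_sq_le
    nlinarith
  rw [Real.sqrt_lt' (by positivity)]
  have hsq : Real.sqrt (L ^ 2 + h ^ 2) ^ 2 = L ^ 2 + h ^ 2 := Real.sq_sqrt (by positivity)
  nlinarith

lemma dom (hL : 0 < L) (hh : 0 ≤ h) (h1 : 2 * L + 1 < h ^ 2) (h2 : 2 * h + 3 < L) :
    ∀ x ∈ cfg k L h, ∀ y ∈ cfg k L h, x ≠ y → dist x y ≤ wt k L h x + wt k L h y := by
  have s1 := sqrt_mono L h hh (-1) (by norm_num)
  have s2 := sqrt_mono L h hh (-2) (by norm_num)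
  have s3 := S_gt L h h1
  have s4 := dist_ac_lt L h hL h2
  have wa := wt_a k L h hL
  have wa' := wt_a' k L h hL
  have wc := wt_c k L h
  have w0 : wt k L h (pt k 0 0) = 1 := by
    rw [wt_b k L h 0 (by norm_num), sub_zero]
    ring
  have w1 := wt_b k L h (-1) (by norm_num)
  have w2 := wt_b k L h (-2) (by norm_num)
  have x1 := dist_ab k L h (-4)
  have x2 := dist_ab k L h (-1)
  have x3 := dist_ab k L h (-2)
  have x4 : dist (pt k L h) (pt k 0 0) = Real.sqrt (L ^ 2 + h ^ 2) := by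
    rw [dist_ab, sub_zero]
  have x5 := dist_a'b k L h (-4)
  have x6 := dist_a'b k L h (-1)
  have x7 := dist_a'b k L h (-2)
  have x8 : dist (pt k (-L) h) (pt k 0 0) = Real.sqrt (L ^ 2 + h ^ 2) := by
    rw [dist_a'b, sub_zero]
  have x9 := dist_aa' k L h hL
  have y1 : dist (pt k 0 (-4)) (pt k 0 0) = 4 := by rw [dist_bb]; norm_num
  have y2 : dist (pt k 0 (-4)) (pt k 0 (-1)) = 3 := by rw [dist_bb]; norm_num
  have y3 : dist (pt k 0 (-4)) (pt k 0 (-2)) = 2 := by rw [dist_bb]; norm_num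
  have y4 : dist (pt k 0 0) (pt k 0 (-1)) = 1 := by rw [dist_bb]; norm_num
  have y5 : dist (pt k 0 0) (pt k 0 (-2)) = 2 := by rw [dist_bb]; norm_num
  have y6 : dist (pt k 0 (-1)) (pt k 0 (-2)) = 1 := by rw [dist_bb]; norm_num
  intro x hx y hy hxy
  rw [mem_cfg] at hx hy
  rcases hx with rfl | rfl | rfl | rfl | rfl | rfl <;>
    rcases hy with rfl | rfl | rfl | rfl | rfl | rfl <;>
    first
    | exact absurd rfl hxy
    | (simp only [x1, x2, x3, x4, x5, x6, x7, x8, x9, y1, y2, y3, y4, y5, y6, wa, wa', wc, w0,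
        w1, w2]; linarith)
    | (rw [dist_comm]; simp only [x1, x2, x3, x4, x5, x6, x7, x8, x9, y1, y2, y3, y4, y5, y6,
        wa, wa', wc, w0, w1, w2]; linarith)

lemma tight_mat (hL : 0 < L) : ∀ p ∈ mat k L h, pairDist p = pairWt (wt k L h) p := by
  intro p hp
  rw [mem_mat] at hp
  rcases hp with rfl | rfl | rfl
  · change dist (pt k L h) (pt k 0 (-1)) = wt k L h (pt k L h) + wt k L h (pt k 0 (-1))
    rw [dist_ab, wt_a k L h hL, wt_b k L h (-1) (by norm_num)]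
    ring
  · change dist (pt k (-L) h) (pt k 0 (-2)) = wt k L h (pt k (-L) h) + wt k L h (pt k 0 (-2))
    rw [dist_a'b, wt_a' k L h hL, wt_b k L h (-2) (by norm_num)]
    ring
  · change dist (pt k 0 (-4)) (pt k 0 0) = wt k L h (pt k 0 (-4)) + wt k L h (pt k 0 0)
    rw [dist_bb, wt_c, wt_b k L h 0 (by norm_num), sub_zero]
    norm_num

/-- In a max-sum matching the partner of `(0,-4)` is `(0,0)`, and the partners of
`(L,h)` and `(-L,h)` are among `(0,0), (0,-1), (0,-2)`. -/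
lemma partners (hL : 0 < L) (hh : 0 ≤ h) (h1 : 2 * L + 1 < h ^ 2) (h2 : 2 * h + 3 < L)
    (M : Finset (Sym2 (E (k + 2)))) (hM : IsMaxSumMatching (cfg k L h) M) :
    s(pt k 0 (-4), pt k 0 0) ∈ M ∧
    (∃ j : ℝ, 0 ≤ j ∧ j ≤ 2 ∧ s(pt k L h, pt k 0 (-j)) ∈ M) ∧
    (∃ j : ℝ, 0 ≤ j ∧ j ≤ 2 ∧ s(pt k (-L) h, pt k 0 (-j)) ∈ M) := by
  have ht := tight_of_isMaxSum (cfg k L h) (mat k L h) M (perfect k L h hL) (wt k L h)
    (dom k L h hL hh h1 h2) (tight_mat k L h hL) hM
  have s1 := sqrt_strict L h hh (-1) (by norm_num)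
  have s2 := sqrt_strict L h hh (-2) (by norm_num)
  have s3 := S_gt L h h1
  have s4 := dist_ac_lt L h hL h2
  have wa := wt_a k L h hL
  have wa' := wt_a' k L h hL
  have wc := wt_c k L h
  have w0 : wt k L h (pt k 0 0) = 1 := by
    rw [wt_b k L h 0 (by norm_num), sub_zero]
    ring
  have w1 := wt_b k L h (-1) (by norm_num)
  have w2 := wt_b k L h (-2) (by norm_num)
  have x1 := dist_ab k L h (-4)
  have x5 := dist_a'b k L h (-4)
  have x9 := dist_aa' k L h hL
  have y2 : dist (pt k 0 (-4)) (pt k 0 (-1)) = 3 := by rw [dist_bb]; norm_num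
  have y3 : dist (pt k 0 (-4)) (pt k 0 (-2)) = 2 := by rw [dist_bb]; norm_num
  obtain ⟨⟨hM1, hM2⟩, -⟩ := hM
  have key : ∀ x ∈ cfg k L h, ∃ y ∈ cfg k L h, x ≠ y ∧ s(x, y) ∈ M ∧
      dist x y = wt k L h x + wt k L h y := by
    intro x hx
    obtain ⟨p, ⟨hpM, hxp⟩, -⟩ := hM2 x hx
    obtain ⟨y, rfl⟩ := Sym2.mem_iff_exists.1 hxp
    obtain ⟨hd, hX⟩ := hM1 _ hpM
    refine ⟨y, hX y (Sym2.mem_mk_right x y), ?_, hpM, ht _ hpM⟩
    intro h
    apply hd
    simpa using h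
  refine ⟨?_, ?_, ?_⟩
  · obtain ⟨y, hy, hne, hyM, hyt⟩ := key (pt k 0 (-4)) (by simp [mem_cfg])
    rw [mem_cfg] at hy
    rcases hy with rfl | rfl | rfl | rfl | rfl | rfl
    · exfalso
      rw [dist_comm, x1, wc, wa] at hyt
      linarith
    · exfalso
      rw [dist_comm, x5, wc, wa'] at hyt
      linarith
    · exact absurd rfl hne
    · exact hyM
    · exfalso
      rw [y2, wc, w1] at hyt
      linarith
    · exfalso
      rw [y3, wc, w2] at hyt
      linarith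
  · obtain ⟨y, hy, hne, hyM, hyt⟩ := key (pt k L h) (by simp [mem_cfg])
    rw [mem_cfg] at hy
    rcases hy with rfl | rfl | rfl | rfl | rfl | rfl
    · exact absurd rfl hne
    · exfalso
      rw [x9, wa, wa'] at hyt
      linarith
    · exfalso
      rw [x1, wa, wc] at hyt
      linarith
    · exact ⟨0, by norm_num, by norm_num, by rw [neg_zero]; exact hyM⟩
    · exact ⟨1, by norm_num, by norm_num, hyM⟩
    · exact ⟨2, by norm_num, by norm_num, hyM⟩
  · obtain ⟨y, hy, hne, hyM, hyt⟩ := key (pt k (-L) h) (by simp [mem_cfg])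
    rw [mem_cfg] at hy
    rcases hy with rfl | rfl | rfl | rfl | rfl | rfl
    · exfalso
      rw [dist_comm, x9, wa, wa'] at hyt
      linarith
    · exact absurd rfl hne
    · exfalso
      rw [x5, wa', wc] at hyt
      linarith
    · exact ⟨0, by norm_num, by norm_num, by rw [neg_zero]; exact hyM⟩
    · exact ⟨1, by norm_num, by norm_num, hyM⟩
    · exact ⟨2, by norm_num, by norm_num, hyM⟩

/-- The common intersection of the balls is thin. -/
lemma thin (hL : 0 < L) (hh : 0 ≤ h) (h1 : 2 * L + 1 < h ^ 2) (h2 : 2 * h + 3 < L)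
    (M : Finset (Sym2 (E (k + 2)))) (hM : IsMaxSumMatching (cfg k L h) M)
    (z : E (k + 2)) (ρ : ℝ) (hρ : 0 < ρ) (hz : Metric.ball z ρ ⊆ ⋂ p ∈ M, pairBall p) :
    ρ * L ≤ 4 * h + 8 := by
  obtain ⟨hc, ⟨i, hi0, hi2, hiM⟩, ⟨j, hj0, hj2, hjM⟩⟩ := partners k L h hL hh h1 h2 M hM
  have sub : ∀ p ∈ M, Metric.ball z ρ ⊆ pairBall p := by
    intro p hp y hy
    have := hz hy
    rw [Set.mem_iInter₂] at this
    exact this p hp
  have b0 : z 1 ≤ 0 := by
    have := inner_nonneg_of_mem _ _ z (sub _ hc (Metric.mem_ball_self hρ))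
    rw [pt_sub, inner_pt] at this
    have e : (z - pt k 0 0) 1 = z 1 := by
      rw [PiLp.sub_apply, pt_one, sub_zero]
    rw [e] at this
    nlinarith
  have b1 := half_space _ _ z ρ hρ (ne1 k L hL h (-i)) (sub _ hiM)
  have b2 := half_space _ _ z ρ hρ (ne2 k L hL h (-j)) (sub _ hjM)
  rw [pt_sub, inner_pt, PiLp.sub_apply, PiLp.sub_apply, pt_zero, pt_one, norm_pt] at b1 b2
  have n1 : L ≤ Real.sqrt ((L - 0) ^ 2 + (h - -i) ^ 2) := by
    apply Real.le_sqrt_of_sq_le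
    nlinarith
  have n2 : L ≤ Real.sqrt ((-L - 0) ^ 2 + (h - -j) ^ 2) := by
    apply Real.le_sqrt_of_sq_le
    nlinarith
  have m1 : ρ / 2 * L ≤ ρ / 2 * Real.sqrt ((L - 0) ^ 2 + (h - -i) ^ 2) :=
    mul_le_mul_of_nonneg_left n1 (by positivity)
  have m2 : ρ / 2 * L ≤ ρ / 2 * Real.sqrt ((-L - 0) ^ 2 + (h - -j) ^ 2) :=
    mul_le_mul_of_nonneg_left n2 (by positivity)
  have q1 : z 1 * (h + i) ≤ 0 := mul_nonpos_of_nonpos_of_nonneg b0 (by positivity)
  have q2 : z 1 * (h + j) ≤ 0 := mul_nonpos_of_nonpos_of_nonneg b0 (by positivity)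
  have q3 : i * (h + i) ≤ 2 * (h + 2) := by nlinarith
  have q4 : j * (h + j) ≤ 2 * (h + 2) := by nlinarith
  nlinarith

lemma minDist (hL : 1 < L) : IsMinDist (cfg k L h) 1 := by
  have hL0 : 0 < L := by linarith
  have y1 : dist (pt k 0 (-4)) (pt k 0 0) = 4 := by rw [dist_bb]; norm_num
  have y2 : dist (pt k 0 (-4)) (pt k 0 (-1)) = 3 := by rw [dist_bb]; norm_num
  have y3 : dist (pt k 0 (-4)) (pt k 0 (-2)) = 2 := by rw [dist_bb]; norm_num
  have y4 : dist (pt k 0 0) (pt k 0 (-1)) = 1 := by rw [dist_bb]; norm_num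
  have y5 : dist (pt k 0 0) (pt k 0 (-2)) = 2 := by rw [dist_bb]; norm_num
  have y6 : dist (pt k 0 (-1)) (pt k 0 (-2)) = 1 := by rw [dist_bb]; norm_num
  have x9 := dist_aa' k L h hL0
  have hs : ∀ y : ℝ, 1 ≤ Real.sqrt (L ^ 2 + (h - y) ^ 2) := by
    intro y
    apply Real.le_sqrt_of_sq_le
    nlinarith [sq_nonneg (h - y)]
  have s0 := hs 0
  have s1 := hs (-1)
  have s2 := hs (-2)
  have s4 := hs (-4)
  have x0 := dist_ab k L h 0
  have x1 := dist_ab k L h (-4)
  have x2 := dist_ab k L h (-1)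
  have x3 := dist_ab k L h (-2)
  have z0 := dist_a'b k L h 0
  have z1 := dist_a'b k L h (-4)
  have z2 := dist_a'b k L h (-1)
  have z3 := dist_a'b k L h (-2)
  refine ⟨⟨pt k 0 0, by simp [mem_cfg], pt k 0 (-1), by simp [mem_cfg],
    ne4 k (by norm_num), y4⟩, ?_⟩
  rintro t ⟨x, hx, y, hy, hxy, rfl⟩
  rw [mem_cfg] at hx hy
  rcases hx with rfl | rfl | rfl | rfl | rfl | rfl <;>
    rcases hy with rfl | rfl | rfl | rfl | rfl | rfl <;>
    first
    | exact absurd rfl hxy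
    | (simp only [x0, x1, x2, x3, z0, z1, z2, z3, x9, y1, y2, y3, y4, y5, y6]; linarith)
    | (rw [dist_comm]; simp only [x0, x1, x2, x3, z0, z1, z2, z3, x9, y1, y2, y3, y4, y5, y6]
       linarith)

end config

/-- For every dimension `d ≥ 2` and every `ε > 0` there is a set `X` of six distinct points of
`ℝ^d` (minimum distance `r`) that has a max-sum matching, and such that for EVERY max-sum
matching `M` of `X` the intersection of the closed balls induced by the pairs of `M` contains no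
open ball (hence no closed ball) of radius `ε r`. -/
theorem result (d : ℕ) (hd : 2 ≤ d) (ε : ℝ) (hε : 0 < ε) :
    ∃ (X : Finset (E d)) (r : ℝ), X.card = 6 ∧ IsMinDist X r ∧ 0 < r ∧
      (∃ M : Finset (Sym2 (E d)), IsMaxSumMatching X M) ∧
      ∀ M : Finset (Sym2 (E d)), IsMaxSumMatching X M →
        ∀ z : E d, ¬ (Metric.ball z (ε * r) ⊆ ⋂ p ∈ M, pairBall p) := by
  obtain ⟨k, rfl⟩ : ∃ k, d = k + 2 := ⟨d - 2, by omega⟩
  obtain ⟨t, ht3, htε⟩ : ∃ t : ℝ, 3 ≤ t ∧ 5 < ε * t := by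
    refine ⟨max 3 (6 / ε), le_max_left _ _, ?_⟩
    have : ε * (6 / ε) ≤ ε * max 3 (6 / ε) :=
      mul_le_mul_of_nonneg_left (le_max_right _ _) hε.le
    rw [mul_div_cancel₀ _ hε.ne'] at this
    linarith
  have hL : (0 : ℝ) < t ^ 3 := by positivity
  have hh : (0 : ℝ) ≤ t ^ 2 := by positivity
  have ht2 : 9 ≤ t ^ 2 := by nlinarith
  have ht33 : 3 * t ^ 2 ≤ t ^ 3 := by nlinarith
  have h1 : 2 * t ^ 3 + 1 < (t ^ 2) ^ 2 := by nlinarith
  have h2 : 2 * t ^ 2 + 3 < t ^ 3 := by nlinarith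
  have h3 : 1 < t ^ 3 := by nlinarith
  refine ⟨cfg k (t ^ 3) (t ^ 2), 1, card_cfg k _ _ hL, minDist k _ _ h3, one_pos,
    ⟨mat k (t ^ 3) (t ^ 2), ?_⟩, ?_⟩
  · exact isMaxSum_of_weight _ _ (perfect k _ _ hL) (wt k (t ^ 3) (t ^ 2))
      (dom k _ _ hL hh h1 h2) (tight_mat k _ _ hL)
  · intro M hM z hz
    rw [mul_one] at hz
    have := thin k _ _ hL hh h1 h2 M hM z ε hε hz
    nlinarith

end Pool.Agent.Results.MP_70625d_co.NoCommonBall
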